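import Pool.Agent.helper56.NZ.Spec

/-!
# NZ.SLT: the slit map
-/

set_option autoImplicit false

open Complex Metric Set Filter Topology MeasureTheory
open Pool.Agent.helper98.ILF Pool.Agent.helper16.Multibrot
open HY (UD T S hd UN RM VV SG Orb fz)

noncomputable section

namespace NZ

/-- the map onto the right half plane. -/
def SLT_p (z : ℂ) : ℂ := (1 + z) / (1 - z)

def SLT_q (s : ℝ) (z : ℂ) : ℂ := (1 - (s : ℂ)) + (s : ℂ) * SLT_p z ^ 2

def SLT_P (s : ℝ) (z : ℂ) : ℂ := Complex.exp (Complex.log (SLT_q s z) / 2)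

def SLT_s (s : ℝ) (z : ℂ) : ℂ := (SLT_P s z - 1) / (SLT_P s z + 1)

theorem SLT_ne {z : ℂ} (hz : z ∈ UD) : (1 : ℂ) - z ≠ 0 := by
  intro h
  have h1 : z = 1 := (sub_eq_zero.mp h).symm
  have h2 : ‖z‖ < 1 := by simpa [UD, mem_ball_zero_iff] using hz
  rw [h1] at h2; simp at h2

theorem SLT_repos {z : ℂ} (hz : z ∈ UD) : 0 < (SLT_p z).re := by
  have h2 : ‖z‖ < 1 := by simpa [UD, mem_ball_zero_iff] using hz
  have hne := SLT_ne hz
  have hn : 0 < normSq (1 - z) := normSq_pos.mpr hne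
  unfold SLT_p
  rw [Complex.div_re]
  have h3 : z.re * z.re + z.im * z.im < 1 := by
    have := Complex.sq_norm z
    rw [Complex.normSq_apply] at this
    have h4 : ‖z‖ ^ 2 < 1 := by nlinarith [norm_nonneg z]
    linarith
  rw [← add_div]
  apply div_pos _ hn
  simp only [Complex.add_re, Complex.one_re, Complex.sub_re, Complex.add_im, Complex.one_im,
    Complex.sub_im]
  nlinarith

theorem SLT_slit {s : ℝ} (h0 : 0 < s) (h1 : s ≤ 1) {z : ℂ} (hz : z ∈ UD) : SLT_q s z ∈ slitPlane := by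
  have hp := SLT_repos hz
  set p := SLT_p z with hpdef
  rw [mem_slitPlane_iff]
  unfold SLT_q
  rw [← hpdef]
  have hre : ((1 - (s : ℂ)) + (s : ℂ) * p ^ 2).re = (1 - s) + s * (p.re ^ 2 - p.im ^ 2) := by
    rw [pow_two]
    simp only [Complex.add_re, Complex.sub_re, Complex.one_re, Complex.ofReal_re, Complex.mul_re,
      Complex.ofReal_im, Complex.mul_im]
    ring
  have him : ((1 - (s : ℂ)) + (s : ℂ) * p ^ 2).im = 2 * s * (p.re * p.im) := by
    rw [pow_two]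
    simp only [Complex.add_im, Complex.sub_im, Complex.one_im, Complex.ofReal_re, Complex.mul_re,
      Complex.ofReal_im, Complex.mul_im]
    ring
  rw [hre, him]
  by_cases h : p.im = 0
  · left
    rw [h]
    have : 0 < s * p.re ^ 2 := by positivity
    nlinarith
  · right
    have := hp.ne'
    positivity

theorem SLT_Psq {s : ℝ} (h0 : 0 < s) (h1 : s ≤ 1) {z : ℂ} (hz : z ∈ UD) : SLT_P s z ^ 2 = SLT_q s z := by
  unfold SLT_P
  rw [← Complex.exp_nat_mul]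
  have : ((2 : ℕ) : ℂ) * (Complex.log (SLT_q s z) / 2) = Complex.log (SLT_q s z) := by
    push_cast; ring
  rw [this, Complex.exp_log (slitPlane_ne_zero (SLT_slit h0 h1 hz))]

theorem SLT_Pre {s : ℝ} (h0 : 0 < s) (h1 : s ≤ 1) {z : ℂ} (hz : z ∈ UD) : 0 < (SLT_P s z).re := by
  unfold SLT_P
  rw [Complex.exp_re]
  apply mul_pos (Real.exp_pos _)
  have hs := SLT_slit h0 h1 hz
  have him : (Complex.log (SLT_q s z) / 2).im = arg (SLT_q s z) / 2 := by
    have : (Complex.log (SLT_q s z) / 2) = ((1 / 2 : ℝ) : ℂ) * Complex.log (SLT_q s z) := by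
      push_cast; ring
    rw [this, Complex.im_ofReal_mul, Complex.log_im]
    ring
  rw [him]
  have ha := Complex.arg_mem_Ioc (SLT_q s z)
  have ha2 := (mem_slitPlane_iff_arg.mp hs).1
  have ha3 : arg (SLT_q s z) < Real.pi := lt_of_le_of_ne ha.2 ha2
  apply Real.cos_pos_of_mem_Ioo
  constructor
  · have := ha.1; linarith
  · linarith

theorem SLT_P1ne {s : ℝ} (h0 : 0 < s) (h1 : s ≤ 1) {z : ℂ} (hz : z ∈ UD) : SLT_P s z + 1 ≠ 0 := by
  intro h
  have h2 := SLT_Pre h0 h1 hz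
  have h3 := congrArg Complex.re h
  simp at h3
  linarith

theorem SLT_map {s : ℝ} (h0 : 0 < s) (h1 : s ≤ 1) {z : ℂ} (hz : z ∈ UD) : SLT_s s z ∈ UD := by
  have hre := SLT_Pre h0 h1 hz
  have hne := SLT_P1ne h0 h1 hz
  unfold SLT_s UD
  rw [mem_ball_zero_iff, norm_div, div_lt_one (norm_pos_iff.mpr hne)]
  have h2 : ‖SLT_P s z - 1‖ ^ 2 < ‖SLT_P s z + 1‖ ^ 2 := by
    rw [Complex.sq_norm, Complex.sq_norm, Complex.normSq_apply, Complex.normSq_apply]
    simp only [Complex.sub_re, Complex.one_re, Complex.sub_im, Complex.one_im, Complex.add_re,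
      Complex.add_im]
    nlinarith
  exact lt_of_pow_lt_pow_left₀ 2 (norm_nonneg _) h2

theorem SLT_P_of_s {s : ℝ} (h0 : 0 < s) (h1 : s ≤ 1) {z : ℂ} (hz : z ∈ UD) :
    SLT_P s z * (1 - SLT_s s z) = 1 + SLT_s s z := by
  have hne := SLT_P1ne h0 h1 hz
  unfold SLT_s
  field_simp
  ring

theorem SLT_inj {s : ℝ} (h0 : 0 < s) (h1 : s ≤ 1) : InjOn (SLT_s s) UD := by
  intro z hz w hw h
  have hsne : (1 : ℂ) - SLT_s s z ≠ 0 := SLT_ne (SLT_map h0 h1 hz)
  have hP : SLT_P s z = SLT_P s w := by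
    have e1 := SLT_P_of_s h0 h1 hz
    have e2 := SLT_P_of_s h0 h1 hw
    rw [← h, ← e1] at e2
    exact (mul_right_cancel₀ hsne e2).symm
  have hq : SLT_q s z = SLT_q s w := by
    rw [← SLT_Psq h0 h1 hz, ← SLT_Psq h0 h1 hw, hP]
  have hs : (s : ℂ) ≠ 0 := by exact_mod_cast h0.ne'
  have hp2 : SLT_p z ^ 2 = SLT_p w ^ 2 := by
    unfold SLT_q at hq
    have := add_left_cancel hq
    exact mul_left_cancel₀ hs this
  have hp : SLT_p z = SLT_p w := by
    rcases sq_eq_sq_iff_eq_or_eq_neg.mp hp2 with h3 | h3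
    · exact h3
    · exfalso
      have a := SLT_repos hz
      have b := SLT_repos hw
      rw [h3, Complex.neg_re] at a
      linarith
  unfold SLT_p at hp
  rw [div_eq_div_iff (SLT_ne hz) (SLT_ne hw)] at hp
  linear_combination hp / 2

theorem SLT_hp {z : ℂ} (hz : z ∈ UD) : HasDerivAt SLT_p (2 / (1 - z) ^ 2) z := by
  have hne := SLT_ne hz
  have h1 : HasDerivAt (fun z : ℂ => 1 + z) 1 z := by simpa using (hasDerivAt_id z).const_add 1
  have h2 : HasDerivAt (fun z : ℂ => 1 - z) (-1) z := by simpa using (hasDerivAt_id z).const_sub 1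
  have h3 := h1.div h2 hne
  have e : (1 * (1 - z) - (1 + z) * -1) / (1 - z) ^ 2 = 2 / (1 - z) ^ 2 := by
    congr 1; ring
  rw [e] at h3
  exact h3

theorem SLT_hq (s : ℝ) {z : ℂ} (hz : z ∈ UD) :
    HasDerivAt (SLT_q s) ((s : ℂ) * (2 * SLT_p z * (2 / (1 - z) ^ 2))) z := by
  have h1 := (SLT_hp hz).pow 2
  have h2 := (h1.const_mul (s : ℂ)).const_add (1 - (s : ℂ))
  have e : (s : ℂ) * (((2 : ℕ) : ℂ) * SLT_p z ^ (2 - 1) * (2 / (1 - z) ^ 2)) =
      (s : ℂ) * (2 * SLT_p z * (2 / (1 - z) ^ 2)) := by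
    norm_num
  rw [e] at h2
  exact h2

theorem SLT_hP {s : ℝ} (h0 : 0 < s) (h1 : s ≤ 1) {z : ℂ} (hz : z ∈ UD) :
    HasDerivAt (SLT_P s) (SLT_P s z * (((s : ℂ) * (2 * SLT_p z * (2 / (1 - z) ^ 2))) / SLT_q s z / 2)) z := by
  have h2 := ((SLT_hq s hz).clog (SLT_slit h0 h1 hz)).div_const 2
  exact h2.cexp

theorem SLT_hs {s : ℝ} (h0 : 0 < s) (h1 : s ≤ 1) {z : ℂ} (hz : z ∈ UD) :
    HasDerivAt (SLT_s s) (((SLT_P s z * (((s : ℂ) * (2 * SLT_p z * (2 / (1 - z) ^ 2))) / SLT_q s z / 2)) *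
      (SLT_P s z + 1) - (SLT_P s z - 1) *
      (SLT_P s z * (((s : ℂ) * (2 * SLT_p z * (2 / (1 - z) ^ 2))) / SLT_q s z / 2))) / (SLT_P s z + 1) ^ 2) z := by
  have h2 := SLT_hP h0 h1 hz
  exact (h2.sub_const 1).div (h2.add_const 1) (SLT_P1ne h0 h1 hz)

theorem SLT_0 : (0 : ℂ) ∈ UD := by simp [UD]

theorem SLT_p0 : SLT_p 0 = 1 := by simp [SLT_p]

theorem SLT_q0 (s : ℝ) : SLT_q s 0 = 1 := by simp [SLT_q, SLT_p0]

theorem SLT_P0 (s : ℝ) : SLT_P s 0 = 1 := by simp [SLT_P, SLT_q0]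

theorem SLT_s0 (s : ℝ) : SLT_s s 0 = 0 := by simp [SLT_s, SLT_P0]

theorem SLT_hs0 {s : ℝ} (h0 : 0 < s) (h1 : s ≤ 1) : HasDerivAt (SLT_s s) (s : ℂ) 0 := by
  have h := SLT_hs h0 h1 SLT_0
  rw [SLT_P0, SLT_q0, SLT_p0] at h
  have e : (1 * (((s : ℂ) * (2 * 1 * (2 / (1 - 0) ^ 2))) / 1 / 2) * (1 + 1) - (1 - 1) *
      (1 * (((s : ℂ) * (2 * 1 * (2 / (1 - 0) ^ 2))) / 1 / 2))) / (1 + 1) ^ 2 = (s : ℂ) := by
    ring
  rw [e] at h
  exact h

/-- the number `s`. -/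
theorem SLT_num {d : ℝ} (h0 : 1 / 2 ≤ d) (h1 : d < 1) :
    0 < 4 * d / (1 + d) ^ 2 ∧ 4 * d / (1 + d) ^ 2 ≤ 1 ∧
    4 * d / (1 + d) ^ 2 = 1 - ((1 - d) / (1 + d)) ^ 2 ∧
    Real.exp (-(2 * (1 - d) ^ 2)) ≤ 4 * d / (1 + d) ^ 2 := by
  have hd : 0 < 1 + d := by linarith
  have e : 4 * d / (1 + d) ^ 2 = 1 - ((1 - d) / (1 + d)) ^ 2 := by
    field_simp; ring
  refine ⟨by positivity, ?_, e, ?_⟩
  · rw [e]; nlinarith [sq_nonneg ((1 - d) / (1 + d))]
  · rw [e]
    set t := (1 - d) ^ 2 with ht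
    have ht0 : 0 ≤ t := sq_nonneg _
    have ht1 : t ≤ 1 / 4 := by rw [ht]; nlinarith
    have h2 : ((1 - d) / (1 + d)) ^ 2 ≤ t := by
      rw [div_pow, ← ht]
      apply div_le_self ht0
      nlinarith
    have h3 : 2 * t + 1 ≤ Real.exp (2 * t) := Real.add_one_le_exp _
    have h4 : Real.exp (-(2 * t)) ≤ 1 - t := by
      rw [Real.exp_neg]
      rw [inv_le_iff_one_le_mul₀ (Real.exp_pos _)]
      have h5 : (1 - t) * (2 * t + 1) ≤ (1 - t) * Real.exp (2 * t) :=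
        mul_le_mul_of_nonneg_left h3 (by linarith)
      nlinarith
    linarith

theorem SLT : SLT_stmt := by
  intro v hv hv2
  have hv1 : ‖v‖ < 1 := by simpa [UD, mem_ball_zero_iff] using hv
  set d : ℝ := ‖v‖ with hd
  obtain ⟨hs0, hs1, hs2, hs3⟩ := SLT_num hv2 hv1
  set s : ℝ := 4 * d / (1 + d) ^ 2 with hs
  have hd0 : 0 < d := by linarith
  have hdne : (d : ℂ) ≠ 0 := by exact_mod_cast hd0.ne'
  set e : ℂ := v / d with he
  have hen : ‖e‖ = 1 := by
    rw [he, norm_div, Complex.norm_real, Real.norm_of_nonneg hd0.le, ← hd]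
    exact div_self hd0.ne'
  have hve : v = e * d := by rw [he]; field_simp
  have hee : e * (starRingEnd ℂ) e = 1 := by
    rw [Complex.mul_conj, Complex.normSq_eq_norm_sq, hen]; simp
  have hene : e ≠ 0 := by intro h; rw [h] at hen; simp at hen
  have hce : (starRingEnd ℂ) e ≠ 0 := by simpa using hene
  have hmap : ∀ z ∈ UD, -(starRingEnd ℂ) e * z ∈ UD := by
    intro z hz
    unfold UD at hz ⊢
    rw [mem_ball_zero_iff] at hz ⊢
    rw [norm_mul, norm_neg, RCLike.norm_conj, hen, one_mul]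
    exact hz
  refine ⟨fun z => -e * SLT_s s (-(starRingEnd ℂ) e * z), ⟨?_, ?_, ?_⟩, ?_, ?_, ?_⟩
  · intro z hz
    apply DifferentiableAt.differentiableWithinAt
    have h1 : DifferentiableAt ℂ (SLT_s s) (-(starRingEnd ℂ) e * z) :=
      (SLT_hs hs0 hs1 (hmap z hz)).differentiableAt
    have h2 : DifferentiableAt ℂ (fun z : ℂ => -(starRingEnd ℂ) e * z) z :=
      (differentiableAt_id).const_mul _
    exact (h1.comp z h2).const_mul _
  · intro z hz w hw h
    have h1 : SLT_s s (-(starRingEnd ℂ) e * z) = SLT_s s (-(starRingEnd ℂ) e * w) :=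
      mul_left_cancel₀ (neg_ne_zero.mpr hene) h
    have h2 := SLT_inj hs0 hs1 (hmap z hz) (hmap w hw) h1
    exact mul_left_cancel₀ (neg_ne_zero.mpr hce) h2
  · intro z hz
    have h1 := SLT_map hs0 hs1 (hmap z hz)
    unfold UD at h1 ⊢
    rw [mem_ball_zero_iff] at h1 ⊢
    rw [norm_mul, norm_neg, hen, one_mul]
    exact h1
  · show -e * SLT_s s (-(starRingEnd ℂ) e * 0) = 0
    rw [mul_zero, SLT_s0, mul_zero]
  · intro z hz h
    have hw := hmap z hz
    set w := -(starRingEnd ℂ) e * z with hwdef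
    have h1 : SLT_s s w = -(d : ℂ) := by
      have h2 : -e * SLT_s s w = -e * (-(d : ℂ)) := by
        have h3 : -e * SLT_s s w = v := h
        rw [h3, hve]; ring
      exact mul_left_cancel₀ (neg_ne_zero.mpr hene) h2
    have h2 := SLT_P_of_s hs0 hs1 hw
    rw [h1] at h2
    have hd1 : (1 : ℂ) + d ≠ 0 := by
      have : (0 : ℝ) < 1 + d := by linarith
      exact_mod_cast this.ne'
    have h3 : SLT_P s w = (1 - d) / (1 + d) := by
      rw [eq_div_iff hd1]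
      linear_combination h2
    have h4 := SLT_Psq hs0 hs1 hw
    rw [h3] at h4
    have h5 : (s : ℂ) = 1 - ((1 - (d : ℂ)) / (1 + d)) ^ 2 := by
      have := congrArg (fun x : ℝ => (x : ℂ)) hs2
      push_cast at this
      exact this
    unfold SLT_q at h4
    have h6 : (s : ℂ) * SLT_p w ^ 2 = 0 := by
      linear_combination -h4 + h5
    have hsne : (s : ℂ) ≠ 0 := by exact_mod_cast hs0.ne'
    have h7 : SLT_p w = 0 := by
      rcases mul_eq_zero.mp h6 with h8 | h8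
      · exact absurd h8 hsne
      · exact pow_eq_zero_iff (two_ne_zero) |>.mp h8
    have h9 := SLT_repos hw
    rw [h7] at h9
    simp at h9
  · have h1 : HasDerivAt (SLT_s s) (s : ℂ) (-(starRingEnd ℂ) e * 0) := by
      rw [mul_zero]; exact SLT_hs0 hs0 hs1
    have h2 : HasDerivAt (fun z : ℂ => -(starRingEnd ℂ) e * z) (-(starRingEnd ℂ) e) 0 := by
      simpa using (hasDerivAt_id (0 : ℂ)).const_mul (-(starRingEnd ℂ) e)
    have h3 := (HasDerivAt.comp (0 : ℂ) h1 h2).const_mul (-e)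
    have h4 : deriv (fun z => -e * SLT_s s (-(starRingEnd ℂ) e * z)) 0 = s := by
      have h5 : HasDerivAt (fun z => -e * SLT_s s (-(starRingEnd ℂ) e * z))
        (-e * ((s : ℂ) * -(starRingEnd ℂ) e)) 0 := h3
      rw [h5.deriv]
      linear_combination (s : ℂ) * hee
    rw [h4, Complex.norm_real, Real.norm_of_nonneg hs0.le]
    exact hs3

end NZ
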